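import Pool.Agent.H242.GX.Stm

set_option autoImplicit false

/-! # GX-DYN: summation along the orbits of `x ↦ x + W x` -/

open Set Filter Topology
open scoped ContDiff

namespace Pool.Agent.H630.GX.DYN

open Pool.Agent.H242.GX

/-- the map -/
def S (W : ℝ × ℝ → ℝ × ℝ) (x : ℝ × ℝ) : ℝ × ℝ := x + W x

/-- sums along the orbit -/
noncomputable def T (W : ℝ × ℝ → ℝ × ℝ) (k : ℕ) (x : ℝ × ℝ) : ℝ :=
  ∑ i ∈ Finset.range k, Real.exp (((S W)^[i] x).2)

/-- the hypotheses -/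
structure Hyp (W : ℝ × ℝ → ℝ × ℝ) (a b c C₀ : ℝ) : Prop where
  ab : a < b
  c0 : 0 < c
  C0 : 0 ≤ C₀
  cd : ContDiff ℝ ∞ W
  nW : ∀ x : ℝ × ℝ, x.2 ≤ 0 → ‖W x‖ ≤ C₀ * Real.exp x.2
  le0 : ∀ x : ℝ × ℝ, (W x).1 ≤ 0
  lec : ∀ x : ℝ × ℝ, x.2 ≤ 0 → (W x).1 ≤ - c * Real.exp x.2

variable {W : ℝ × ℝ → ℝ × ℝ} {a b c C₀ : ℝ}

/-- the bound of the sums -/
noncomputable def AA (a b c : ℝ) : ℝ := (b - a) / c + 1

lemma AA_pos (H : Hyp W a b c C₀) : 0 < AA a b c := by
  unfold AA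
  have := div_pos (sub_pos.2 H.ab) H.c0
  linarith

/-- the bound of the displacement -/
noncomputable def MM (a b c C₀ : ℝ) : ℝ := C₀ * AA a b c

lemma MM_nonneg (H : Hyp W a b c C₀) : 0 ≤ MM a b c C₀ := mul_nonneg H.C0 (AA_pos H).le

lemma it_cd (H : Hyp W a b c C₀) (k : ℕ) : ContDiff ℝ ∞ ((S W)^[k]) := by
  induction k with
  | zero => exact contDiff_id
  | succ k ih =>
    rw [Function.iterate_succ]
    exact ih.comp (contDiff_id.add H.cd)

lemma it_succ (k : ℕ) (x : ℝ × ℝ) : (S W)^[k + 1] x = (S W)^[k] x + W ((S W)^[k] x) := by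
  rw [Function.iterate_succ_apply']
  rfl

lemma mono (H : Hyp W a b c C₀) (x : ℝ × ℝ) {j k : ℕ} (h : j ≤ k) :
    ((S W)^[k] x).1 ≤ ((S W)^[j] x).1 := by
  induction k, h using Nat.le_induction with
  | base => exact le_rfl
  | succ k hk ih =>
    rw [it_succ]
    have := H.le0 ((S W)^[k] x)
    rw [Prod.fst_add]
    linarith

lemma T_succ (k : ℕ) (x : ℝ × ℝ) : T W (k + 1) x = T W k x + Real.exp (((S W)^[k] x).2) :=
  Finset.sum_range_succ _ _

lemma T_nonneg (k : ℕ) (x : ℝ × ℝ) : 0 ≤ T W k x := Finset.sum_nonneg fun _ _ => (Real.exp_pos _).le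

/-- the invariant -/
lemma inv (H : Hyp W a b c C₀) (x : ℝ × ℝ) (hx1 : x.1 < b) (hx2 : x.2 < -1 - MM a b c C₀) (k : ℕ)
    (hk : ∀ j < k, a < ((S W)^[j] x).1) :
    T W k x ≤ AA a b c ∧ |((S W)^[k] x).2 - x.2| ≤ C₀ * T W k x ∧
      ((S W)^[k] x).1 ≤ x.1 - c * T W k x := by
  induction k with
  | zero =>
    have hT : T W 0 x = 0 := by simp [T]
    rw [hT]
    refine ⟨(AA_pos H).le, ?_, ?_⟩
    · simp
    · simp
  | succ k ih =>
    obtain ⟨h1, h2, h3⟩ := ih (fun j hj => hk j (by omega))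
    have hya := hk k (Nat.lt_succ_self k)
    rw [it_succ, T_succ]
    set y := (S W)^[k] x with hy
    have hy2 : y.2 ≤ -1 := by
      have e1 := (abs_le.1 h2).2
      have e2 : C₀ * T W k x ≤ MM a b c C₀ := mul_le_mul_of_nonneg_left h1 H.C0
      linarith
    have hTk : T W k x < (b - a) / c := by
      rw [lt_div_iff₀ H.c0]
      nlinarith
    have he : Real.exp y.2 ≤ 1 := Real.exp_le_one_iff.2 (by linarith)
    refine ⟨?_, ?_, ?_⟩
    · unfold AA
      linarith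
    · have e1 : |(W y).2| ≤ ‖W y‖ := by
        rw [← Real.norm_eq_abs]
        exact norm_snd_le _
      have e2 := H.nW y (by linarith)
      have e3 : (y + W y).2 - x.2 = (y.2 - x.2) + (W y).2 := by
        rw [Prod.snd_add]
        ring
      rw [e3]
      calc |(y.2 - x.2) + (W y).2| ≤ |y.2 - x.2| + |(W y).2| := abs_add_le _ _
        _ ≤ C₀ * T W k x + C₀ * Real.exp y.2 := add_le_add h2 (e1.trans e2)
        _ = _ := by ring
    · have e1 := H.lec y (by linarith)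
      rw [Prod.fst_add]
      nlinarith

lemma snd_le (H : Hyp W a b c C₀) (x : ℝ × ℝ) (hx1 : x.1 < b) (hx2 : x.2 < -1 - MM a b c C₀) (k : ℕ)
    (hk : ∀ j < k, a < ((S W)^[j] x).1) :
    |((S W)^[k] x).2 - x.2| ≤ MM a b c C₀ := by
  obtain ⟨h1, h2, -⟩ := inv H x hx1 hx2 k hk
  exact h2.trans (mul_le_mul_of_nonneg_left h1 H.C0)

/-- the orbit leaves the region after a bounded number of steps -/
lemma count (H : Hyp W a b c C₀) (x : ℝ × ℝ) (hx1 : x.1 < b) (hx2 : x.2 < -1 - MM a b c C₀) (k : ℕ)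
    (hk : ∀ j < k, a < ((S W)^[j] x).1) :
    (k : ℝ) ≤ AA a b c * Real.exp (MM a b c C₀ - x.2) := by
  have h1 := (inv H x hx1 hx2 k hk).1
  have h2 : (k : ℝ) * Real.exp (x.2 - MM a b c C₀) ≤ T W k x := by
    unfold T
    rw [← nsmul_eq_mul, ← Finset.card_range k, ← Finset.sum_const, Finset.card_range]
    refine Finset.sum_le_sum fun i hi => ?_
    rw [Finset.mem_range] at hi
    refine Real.exp_le_exp.2 ?_
    have h3 := snd_le H x hx1 hx2 i (fun j hj => hk j (by omega))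
    have h4 := (abs_le.1 h3).1
    linarith
  have h3 : (k : ℝ) * Real.exp (x.2 - MM a b c C₀) ≤ AA a b c := h2.trans h1
  have h4 : Real.exp (x.2 - MM a b c C₀) * Real.exp (MM a b c C₀ - x.2) = 1 := by
    rw [← Real.exp_add]
    simp
  have h5 := mul_le_mul_of_nonneg_right h3 (Real.exp_pos (MM a b c C₀ - x.2)).le
  rw [mul_assoc, h4, mul_one] at h5
  exact h5

/-- a number of steps which is enough for all points with `x.2 > s` -/
noncomputable def KK (a b c C₀ s : ℝ) : ℕ := ⌊AA a b c * Real.exp (MM a b c C₀ - s)⌋₊ + 1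

lemma exits (H : Hyp W a b c C₀) (x : ℝ × ℝ) (hx1 : x.1 < b) (hx2 : x.2 < -1 - MM a b c C₀) (s : ℝ)
    (hs : s ≤ x.2) : ∃ j < KK a b c C₀ s, ((S W)^[j] x).1 ≤ a := by
  by_contra hcon
  push Not at hcon
  have h1 := count H x hx1 hx2 (KK a b c C₀ s) hcon
  have h2 : AA a b c * Real.exp (MM a b c C₀ - x.2) ≤ AA a b c * Real.exp (MM a b c C₀ - s) :=
    mul_le_mul_of_nonneg_left (Real.exp_le_exp.2 (by linarith)) (AA_pos H).le
  have h3 := Nat.lt_floor_add_one (AA a b c * Real.exp (MM a b c C₀ - s))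
  unfold KK at h1
  push_cast at h1
  linarith

lemma vanish (H : Hyp W a b c C₀) (h : ℝ × ℝ → ℝ) (hh : ∀ x : ℝ × ℝ, x.1 ≤ a → h x = 0) (x : ℝ × ℝ)
    (hx1 : x.1 < b) (hx2 : x.2 < -1 - MM a b c C₀) (s : ℝ) (hs : s ≤ x.2) (k : ℕ) (hk : KK a b c C₀ s ≤ k) :
    h ((S W)^[k] x) = 0 := by
  obtain ⟨j, hj, hja⟩ := exits H x hx1 hx2 s hs
  exact hh _ ((mono H x (show j ≤ k by omega)).trans hja)

/-- the solution -/
noncomputable def g (W : ℝ × ℝ → ℝ × ℝ) (h : ℝ × ℝ → ℝ) (x : ℝ × ℝ) : ℝ := ∑' k : ℕ, h ((S W)^[k] x)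

lemma g_eq (H : Hyp W a b c C₀) (h : ℝ × ℝ → ℝ) (hh : ∀ x : ℝ × ℝ, x.1 ≤ a → h x = 0) (x : ℝ × ℝ)
    (hx1 : x.1 < b) (hx2 : x.2 < -1 - MM a b c C₀) (s : ℝ) (hs : s ≤ x.2) :
    g W h x = ∑ k ∈ Finset.range (KK a b c C₀ s), h ((S W)^[k] x) := by
  unfold g
  refine tsum_eq_sum fun k hk => ?_
  rw [Finset.mem_range, not_lt] at hk
  exact vanish H h hh x hx1 hx2 s hs k hk

lemma g_sub (H : Hyp W a b c C₀) (h : ℝ × ℝ → ℝ) (hh : ∀ x : ℝ × ℝ, x.1 ≤ a → h x = 0) (x : ℝ × ℝ)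
    (hx1 : x.1 < b) (hx2 : x.2 < -1 - MM a b c C₀) : g W h x - g W h (x + W x) = h x := by
  set K := KK a b c C₀ x.2 with hK
  have h1 : g W h x = ∑ k ∈ Finset.range (K + 1), h ((S W)^[k] x) := by
    unfold g
    refine tsum_eq_sum fun k hk => ?_
    rw [Finset.mem_range, not_lt] at hk
    exact vanish H h hh x hx1 hx2 x.2 le_rfl k (by omega)
  have h2 : g W h (x + W x) = ∑ k ∈ Finset.range K, h ((S W)^[k + 1] x) := by
    unfold g
    have e : ∀ k : ℕ, h ((S W)^[k] (x + W x)) = h ((S W)^[k + 1] x) := by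
      intro k
      rw [Function.iterate_succ_apply]
      rfl
    simp only [e]
    refine tsum_eq_sum fun k hk => ?_
    rw [Finset.mem_range, not_lt] at hk
    exact vanish H h hh x hx1 hx2 x.2 le_rfl (k + 1) (by omega)
  rw [h1, h2, Finset.sum_range_succ']
  simp

lemma g_ev (H : Hyp W a b c C₀) (h : ℝ × ℝ → ℝ) (hh : ∀ x : ℝ × ℝ, x.1 ≤ a → h x = 0) (x : ℝ × ℝ)
    (hx1 : x.1 < b) (hx2 : x.2 < -1 - MM a b c C₀) :
    g W h =ᶠ[𝓝 x] fun y => ∑ k ∈ Finset.range (KK a b c C₀ (x.2 - 1)), h ((S W)^[k] y) := by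
  have e1 : ∀ᶠ y : ℝ × ℝ in 𝓝 x, y.1 < b := continuous_fst.continuousAt.eventually (gt_mem_nhds hx1)
  have e2 : ∀ᶠ y : ℝ × ℝ in 𝓝 x, y.2 < -1 - MM a b c C₀ :=
    continuous_snd.continuousAt.eventually (gt_mem_nhds hx2)
  have e3 : ∀ᶠ y : ℝ × ℝ in 𝓝 x, x.2 - 1 < y.2 :=
    continuous_snd.continuousAt.eventually (lt_mem_nhds (by linarith))
  filter_upwards [e1, e2, e3] with y h1 h2 h3
  exact g_eq H h hh y h1 h2 _ h3.le

/-- iteration of GX-COMP -/
lemma comp_iter (H : Hyp W a b c C₀) (j : ℕ) (C : ℝ) (hC0 : 0 ≤ C)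
    (hC : ∀ f : ℝ × ℝ → ℝ, ContDiff ℝ ∞ f → ∀ x : ℝ × ℝ, x.2 ≤ 0 →
      nrm j (fun z => f (z + W z)) x ≤ (1 + C * Real.exp x.2) * nrm j f (x + W x))
    (h : ℝ × ℝ → ℝ) (hh : ContDiff ℝ ∞ h) (k : ℕ) : ∀ x : ℝ × ℝ, (∀ i < k, ((S W)^[i] x).2 ≤ 0) →
      nrm j (fun z => h ((S W)^[k] z)) x ≤
        (∏ i ∈ Finset.range k, (1 + C * Real.exp (((S W)^[i] x).2))) * nrm j h ((S W)^[k] x) := by
  induction k with
  | zero =>
    intro x _
    simp
  | succ k ih =>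
    intro x hx
    have h1 := hC (fun z => h ((S W)^[k] z)) (hh.comp (it_cd H k)) x (hx 0 (by omega))
    have h2 := ih (x + W x) (fun i hi => by
      have := hx (i + 1) (by omega)
      rw [Function.iterate_succ_apply] at this
      exact this)
    rw [Finset.prod_range_succ']
    have e1 : (fun z => h ((S W)^[k + 1] z)) = fun z => (fun z => h ((S W)^[k] z)) (z + W z) := by
      funext z
      show h ((S W)^[k + 1] z) = h ((S W)^[k] (z + W z))
      rw [Function.iterate_succ_apply]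
      rfl
    rw [e1]
    refine h1.trans ?_
    have e2 : ∀ i : ℕ, (S W)^[i + 1] x = (S W)^[i] (x + W x) := fun i => by
      rw [Function.iterate_succ_apply]
      rfl
    simp only [e2, Function.iterate_zero, id_eq]
    have e3 : 0 ≤ 1 + C * Real.exp x.2 := by positivity
    have e4 := mul_le_mul_of_nonneg_left h2 e3
    calc _ ≤ _ := e4
      _ = _ := by ring

lemma prod_le (H : Hyp W a b c C₀) (C : ℝ) (hC0 : 0 ≤ C) (x : ℝ × ℝ) (hx1 : x.1 < b)
    (hx2 : x.2 < -1 - MM a b c C₀) (k : ℕ) (hk : ∀ j < k, a < ((S W)^[j] x).1) :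
    ∏ i ∈ Finset.range k, (1 + C * Real.exp (((S W)^[i] x).2)) ≤ Real.exp (C * AA a b c) := by
  have h1 : ∏ i ∈ Finset.range k, (1 + C * Real.exp (((S W)^[i] x).2)) ≤
      ∏ i ∈ Finset.range k, Real.exp (C * Real.exp (((S W)^[i] x).2)) := by
    refine Finset.prod_le_prod (fun i _ => by positivity) fun i _ => ?_
    have := Real.add_one_le_exp (C * Real.exp (((S W)^[i] x).2))
    linarith
  refine h1.trans ?_
  rw [← Real.exp_sum, ← Finset.mul_sum]
  refine Real.exp_le_exp.2 ?_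
  exact mul_le_mul_of_nonneg_left (inv H x hx1 hx2 k hk).1 hC0

lemma le_nrm (j : ℕ) (f : ℝ × ℝ → ℝ) (x : ℝ × ℝ) : ‖iteratedFDeriv ℝ j f x‖ ≤ nrm j f x := by
  unfold nrm
  exact Finset.single_le_sum (f := fun i => ‖iteratedFDeriv ℝ i f x‖) (fun i _ => norm_nonneg _)
    (Finset.mem_range.2 (Nat.lt_succ_self j))

/-- one term -/
lemma term (H : Hyp W a b c C₀) (hCOMP : S_COMP) (hS : Small W) (h : ℝ × ℝ → ℝ) (hcd : ContDiff ℝ ∞ h)
    (hh : ∀ x : ℝ × ℝ, x.1 ≤ a → h x = 0)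
    (hf : ∀ (i N : ℕ), ∃ C : ℝ, ∀ x : ℝ × ℝ, x.1 ≤ b → x.2 ≤ 0 → ‖iteratedFDeriv ℝ i h x‖ ≤ C * Real.exp (N * x.2))
    (i N : ℕ) : ∃ C : ℝ, 0 ≤ C ∧ ∀ (k : ℕ) (x : ℝ × ℝ), x.1 < b → x.2 < -1 - MM a b c C₀ →
      ‖iteratedFDeriv ℝ i (fun z => h ((S W)^[k] z)) x‖ ≤ C * Real.exp (N * x.2) := by
  obtain ⟨C, hC0, hC⟩ := hCOMP W hS i
  choose B hB using fun l => hf l N
  set BB : ℝ := ∑ l ∈ Finset.range (i + 1), |B l| with hBB
  have hBB0 : 0 ≤ BB := Finset.sum_nonneg fun _ _ => abs_nonneg _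
  refine ⟨Real.exp (C * AA a b c) * BB * Real.exp (N * MM a b c C₀), by positivity, ?_⟩
  intro k x hx1 hx2
  by_cases hk : ∀ j < k, a < ((S W)^[j] x).1
  · have hlow : ∀ l ≤ k, ((S W)^[l] x).2 ≤ x.2 + MM a b c C₀ := fun l hl => by
      have := (abs_le.1 (snd_le H x hx1 hx2 l (fun j hj => hk j (by omega)))).2
      linarith
    have h1 := comp_iter H i C hC0 hC h hcd k x (fun l hl => by
      have := hlow l hl.le
      linarith)
    have h2 := prod_le H C hC0 x hx1 hx2 k hk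
    have hy1 : ((S W)^[k] x).1 ≤ b := by
      have := mono H x (Nat.zero_le k)
      simp only [Function.iterate_zero, id_eq] at this
      linarith
    have hy2 := hlow k le_rfl
    have h3 : nrm i h ((S W)^[k] x) ≤ BB * Real.exp (N * (x.2 + MM a b c C₀)) := by
      unfold nrm
      rw [hBB, Finset.sum_mul]
      refine Finset.sum_le_sum fun l _ => ?_
      refine (hB l _ hy1 (by linarith)).trans ?_
      refine mul_le_mul (le_abs_self _) (Real.exp_le_exp.2 ?_) (Real.exp_pos _).le (abs_nonneg _)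
      exact mul_le_mul_of_nonneg_left hy2 (Nat.cast_nonneg _)
    have h4 : 0 ≤ nrm i h ((S W)^[k] x) := Finset.sum_nonneg fun _ _ => norm_nonneg _
    calc _ ≤ nrm i (fun z => h ((S W)^[k] z)) x := le_nrm _ _ _
      _ ≤ _ := h1
      _ ≤ Real.exp (C * AA a b c) * nrm i h ((S W)^[k] x) := mul_le_mul_of_nonneg_right h2 h4
      _ ≤ Real.exp (C * AA a b c) * (BB * Real.exp (N * (x.2 + MM a b c C₀))) :=
        mul_le_mul_of_nonneg_left h3 (Real.exp_pos _).le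
      _ = _ := by
        rw [show (N : ℝ) * (x.2 + MM a b c C₀) = N * x.2 + N * MM a b c C₀ by ring, Real.exp_add]
        ring
  · have hex : ∃ j, j < k ∧ ((S W)^[j] x).1 ≤ a := by
      push Not at hk
      exact hk
    classical
    obtain ⟨hj1, hj2⟩ := Nat.find_spec hex
    have hmin : ∀ l < Nat.find hex, a < ((S W)^[l] x).1 := by
      intro l hl
      by_contra hcon
      push Not at hcon
      exact Nat.find_min hex hl ⟨by omega, hcon⟩
    set j := Nat.find hex with hj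
    have hlow := (abs_le.1 (snd_le H x hx1 hx2 j hmin)).2
    have h1 := H.lec ((S W)^[j] x) (by linarith)
    have h2 : ((S W)^[j + 1] x).1 < a := by
      rw [it_succ, Prod.fst_add]
      have := mul_pos H.c0 (Real.exp_pos (((S W)^[j] x).2))
      linarith
    have h3 : ∀ᶠ y : ℝ × ℝ in 𝓝 x, ((S W)^[j + 1] y).1 < a :=
      ((it_cd H (j + 1)).continuous.fst.continuousAt).eventually (gt_mem_nhds h2)
    have h4 : (fun z => h ((S W)^[k] z)) =ᶠ[𝓝 x] fun _ => (0 : ℝ) := by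
      filter_upwards [h3] with y hy
      exact hh _ ((mono H y (show j + 1 ≤ k by omega)).trans hy.le)
    rw [(h4.iteratedFDeriv ℝ i).eq_of_nhds]
    have h5 : iteratedFDeriv ℝ i (fun _ : ℝ × ℝ => (0 : ℝ)) x = 0 := by
      have := iteratedFDeriv_fun_zero (𝕜 := ℝ) (E := ℝ × ℝ) (F := ℝ) (n := i)
      rw [this]
      rfl
    rw [h5, norm_zero]
    positivity

lemma KK_le (H : Hyp W a b c C₀) (x : ℝ × ℝ) (hx2 : x.2 ≤ 0) :
    (KK a b c C₀ (x.2 - 1) : ℝ) ≤ (AA a b c * Real.exp (MM a b c C₀ + 1) + 1) * Real.exp (-x.2) := by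
  unfold KK
  push_cast
  have h1 : (⌊AA a b c * Real.exp (MM a b c C₀ - (x.2 - 1))⌋₊ : ℝ) ≤ AA a b c * Real.exp (MM a b c C₀ - (x.2 - 1)) :=
    Nat.floor_le (mul_nonneg (AA_pos H).le (Real.exp_pos _).le)
  have h2 : Real.exp (MM a b c C₀ - (x.2 - 1)) = Real.exp (MM a b c C₀ + 1) * Real.exp (-x.2) := by
    rw [← Real.exp_add]
    congr 1
    ring
  have h3 : 1 ≤ Real.exp (-x.2) := Real.one_le_exp (by linarith)
  have h4 : AA a b c * Real.exp (MM a b c C₀ - (x.2 - 1)) =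
      AA a b c * (Real.exp (MM a b c C₀ + 1) * Real.exp (-x.2)) := by rw [h2]
  rw [add_mul, one_mul]
  linarith

end Pool.Agent.H630.GX.DYN

namespace Pool.Agent.H630.GX

open Pool.Agent.H242.GX DYN

theorem gx_DYN (hCOMP : S_COMP) : S_DYN := by
  intro W a b c hS hab hc h1 h2 h hcd hh hf
  obtain ⟨C1, hC1⟩ := hS.2 0
  have H : Hyp W a b c |C1| :=
    { ab := hab
      c0 := hc
      C0 := abs_nonneg _
      cd := hS.1
      nW := fun x hx => by
        have := hC1 x hx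
        rw [norm_iteratedFDeriv_zero] at this
        exact this.trans (mul_le_mul_of_nonneg_right (le_abs_self _) (Real.exp_pos _).le)
      le0 := h1
      lec := h2 }
  have hM := MM_nonneg H
  refine ⟨-1 - MM a b c |C1|, g W h, by linarith, ?_, ?_, ?_⟩
  · rintro x ⟨hx1, hx2⟩
    have e := g_ev H h hh x hx1 hx2
    have e2 : ContDiffAt ℝ ∞ (fun y => ∑ k ∈ Finset.range (KK a b c |C1| (x.2 - 1)), h ((S W)^[k] y)) x := by
      refine ContDiffAt.sum fun k _ => ?_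
      exact (hcd.comp (it_cd H k)).contDiffAt
    exact (e2.congr_of_eventuallyEq e).contDiffWithinAt
  · intro x hx1 hx2
    exact g_sub H h hh x hx1 hx2
  · intro i N
    obtain ⟨C, hC0, hC⟩ := term H hCOMP hS h hcd hh hf i (N + 1)
    refine ⟨(AA a b c * Real.exp (MM a b c |C1| + 1) + 1) * C, ?_⟩
    intro x hx1 hx2
    have e := g_ev H h hh x hx1 hx2
    rw [(e.iteratedFDeriv ℝ i).eq_of_nhds]
    have e3 : iteratedFDeriv ℝ i (fun y => ∑ k ∈ Finset.range (KK a b c |C1| (x.2 - 1)), h ((S W)^[k] y)) x =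
        ∑ k ∈ Finset.range (KK a b c |C1| (x.2 - 1)), iteratedFDeriv ℝ i (fun y => h ((S W)^[k] y)) x := by
      refine iteratedFDeriv_fun_sum_apply fun k _ => ?_
      exact (hcd.comp (it_cd H k)).contDiffAt.of_le (by exact_mod_cast le_top)
    rw [e3]
    have e4 : ‖∑ k ∈ Finset.range (KK a b c |C1| (x.2 - 1)), iteratedFDeriv ℝ i (fun y => h ((S W)^[k] y)) x‖ ≤
        ∑ k ∈ Finset.range (KK a b c |C1| (x.2 - 1)), C * Real.exp (((N + 1 : ℕ) : ℝ) * x.2) :=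
      norm_sum_le_of_le _ fun k _ => hC k x hx1 hx2
    refine e4.trans ?_
    rw [Finset.sum_const, Finset.card_range, nsmul_eq_mul]
    have e5 := KK_le H x (by linarith)
    have e6 : 0 ≤ C * Real.exp (((N + 1 : ℕ) : ℝ) * x.2) := by positivity
    refine (mul_le_mul_of_nonneg_right e5 e6).trans (le_of_eq ?_)
    have e7 : Real.exp (((N + 1 : ℕ) : ℝ) * x.2) = Real.exp x.2 * Real.exp (N * x.2) := by
      rw [← Real.exp_add]
      congr 1
      push_cast
      ring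
    have e8 : Real.exp (-x.2) * Real.exp x.2 = 1 := by
      rw [← Real.exp_add]
      simp
    rw [e7]
    calc _ = (AA a b c * Real.exp (MM a b c |C1| + 1) + 1) * C * (Real.exp (-x.2) * Real.exp x.2) * Real.exp (N * x.2) := by ring
      _ = _ := by rw [e8, mul_one]

end Pool.Agent.H630.GX
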